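import Mathlib

/-!
# MP_873812_co, Q1: the separation choice number of linear uniform hypergraphs may be bounded

For every `r ≥ 8` there are linear `r`-uniform hypergraphs of arbitrarily large average degree
with separation choice number at most `3`.

The colouring argument (`sep_three`): let every set of `A` vertices contain two vertices of a common
edge and let every set of `s ≤ t` vertices contain at most `s/2` edges, where `9|V|A < 2t²`.
Two colours occur together in fewer than `A` lists of a separated list assignment with lists of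
size three, and so in any set of vertices some vertex has two rare colours; this gives sublists of
size two in which each colour occurs at most `t` times.  The edges whose sublists have a common
colour have distinct representatives (Hall's theorem), and each representative avoids the colour
of its edge.

The existence of such hypergraphs (`exists_good`): choose `4g⁴n` random `r`-tuples of vertices
and delete those which repeat a vertex or which meet another tuple twice.
-/

set_option autoImplicit false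

open Finset

namespace Pool.Agent.Results.MP_873812_co.BoundedSeparation

/-! ### Definitions -/

section Defs

variable {V : Type}

/-- The hypergraph with the set of edges `E` has, for all lists of at least `k` colours such that
any two distinct vertices of a common edge have at most one common colour, a proper colouring from
the lists. -/
def SepChoosable (E : Finset (Finset V)) (k : ℕ) : Prop :=
  ∀ (C : Type) [DecidableEq C] (L : V → Finset C), (∀ v, k ≤ (L v).card) →
    (∀ e ∈ E, ∀ u ∈ e, ∀ v ∈ e, u ≠ v → (L u ∩ L v).card ≤ 1) →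
    ∃ φ : V → C, (∀ v, φ v ∈ L v) ∧ ∀ e ∈ E, ¬ ∃ c, ∀ v ∈ e, φ v = c

/-- `k` is the separation choice number. -/
def IsSepChoiceNumber (E : Finset (Finset V)) (k : ℕ) : Prop := IsLeast {j | SepChoosable E j} k

/-- The hypergraph is linear: two distinct vertices lie in at most one common edge. -/
def Linear (E : Finset (Finset V)) : Prop :=
  ∀ u v, u ≠ v → ∀ e ∈ E, ∀ f ∈ E, u ∈ e → v ∈ e → u ∈ f → v ∈ f → e = f

end Defs

/-! ### The colouring argument -/

section Colouring

variable {V C : Type} [Fintype V] [DecidableEq V] [DecidableEq C]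

/-- A vertex with two rare colours. -/
lemma exists_rare (M : V → Finset C) (A t : ℕ) (hM : ∀ v, (M v).card = 3)
    (hA : ∀ c c', c ≠ c' → (univ.filter fun v => c ∈ M v ∧ c' ∈ M v).card < A)
    (hnum : 9 * Fintype.card V * A < 2 * t ^ 2) (X : Finset V) (hX : X.Nonempty) :
    ∃ v ∈ X, 2 ≤ ((M v).filter fun c => (X.filter fun u => c ∈ M u).card ≤ t).card := by
  by_contra hcon
  push Not at hcon
  set Q := (X.biUnion M).filter fun c => t < (X.filter fun u => c ∈ M u).card with hQ
  set b := Q.card with hb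
  let x : V → ℕ := fun v => (Q.filter fun c => c ∈ M v).card
  have hx2 : ∀ v ∈ X, 2 ≤ x v := by
    intro v hv
    have h1 := hcon v hv
    have h2 := card_filter_add_card_filter_not (s := M v)
      (fun c => (X.filter fun u => c ∈ M u).card ≤ t)
    have h3 : ((M v).filter fun c => ¬ (X.filter fun u => c ∈ M u).card ≤ t) ⊆
        Q.filter fun c => c ∈ M v := by
      intro c hc
      obtain ⟨hc1, hc2⟩ := mem_filter.mp hc
      exact mem_filter.mpr ⟨mem_filter.mpr ⟨mem_biUnion.mpr ⟨v, hv, hc1⟩, not_le.mp hc2⟩, hc1⟩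
    have h4 := card_le_card h3
    rw [hM v] at h2
    show 2 ≤ (Q.filter fun c => c ∈ M v).card
    omega
  have hx3 : ∀ v, x v ≤ 3 := by
    intro v
    rw [← hM v]
    exact card_le_card fun c hc => (mem_filter.mp hc).2
  have hsum : ∑ v ∈ X, x v = ∑ c ∈ Q, (X.filter fun u => c ∈ M u).card := by
    simp only [x, card_filter]
    rw [sum_comm]
  have h1 : b * t ≤ 3 * X.card := by
    calc b * t ≤ ∑ c ∈ Q, (X.filter fun u => c ∈ M u).card := by
          rw [hb, ← smul_eq_mul]
          exact Finset.card_nsmul_le_sum _ _ _ fun c hc => (mem_filter.mp hc).2.le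
      _ = ∑ v ∈ X, x v := hsum.symm
      _ ≤ X.card * 3 := by
          rw [← smul_eq_mul]
          exact Finset.sum_le_card_nsmul _ _ _ fun v _ => hx3 v
      _ = _ := mul_comm _ _
  have h2 : ∑ v ∈ X, x v * x v ≤ ∑ v ∈ X, x v + b * b * A := by
    have e1 : ∑ v ∈ X, x v * x v =
        ∑ c ∈ Q, ∑ c' ∈ Q, (X.filter fun v => c ∈ M v ∧ c' ∈ M v).card := by
      have : ∀ v, x v * x v = ∑ c ∈ Q, ∑ c' ∈ Q, if c ∈ M v ∧ c' ∈ M v then 1 else 0 := by
        intro v
        simp only [x, card_filter]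
        rw [Finset.sum_mul_sum]
        refine Finset.sum_congr rfl fun c _ => Finset.sum_congr rfl fun c' _ => ?_
        by_cases h1 : c ∈ M v <;> by_cases h2 : c' ∈ M v <;> simp [h1, h2]
      simp only [this, card_filter]
      rw [sum_comm]
      refine Finset.sum_congr rfl fun c _ => ?_
      rw [sum_comm]
    rw [e1, hsum]
    have e2 : ∀ c ∈ Q, ∑ c' ∈ Q, (X.filter fun v => c ∈ M v ∧ c' ∈ M v).card ≤
        (X.filter fun u => c ∈ M u).card + b * A := by
      intro c hc
      rw [← Finset.add_sum_erase Q _ hc]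
      refine Nat.add_le_add (card_le_card fun v hv => ?_) ?_
      · exact mem_filter.mpr ⟨(mem_filter.mp hv).1, (mem_filter.mp hv).2.1⟩
      · calc ∑ c' ∈ Q.erase c, (X.filter fun v => c ∈ M v ∧ c' ∈ M v).card
            ≤ (Q.erase c).card • A := Finset.sum_le_card_nsmul _ _ _ fun c' hc' => by
              refine le_trans (card_le_card ?_) (hA c c' (ne_of_mem_erase hc').symm).le
              intro v hv
              exact mem_filter.mpr ⟨mem_univ _, (mem_filter.mp hv).2⟩
          _ ≤ b * A := by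
              rw [smul_eq_mul]
              exact Nat.mul_le_mul_right _ (card_erase_le)
    refine le_trans (Finset.sum_le_sum e2) ?_
    rw [sum_add_distrib, sum_const, smul_eq_mul, ← hb, mul_assoc]
  have h3 : 2 * X.card + ∑ v ∈ X, x v ≤ ∑ v ∈ X, x v * x v := by
    have : ∑ v ∈ X, (2 + x v) ≤ ∑ v ∈ X, x v * x v :=
      Finset.sum_le_sum fun v hv => by have := hx2 v hv; nlinarith
    rw [sum_add_distrib, sum_const, smul_eq_mul] at this
    omega
  have h4 : 2 * X.card ≤ b * b * A := by omega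
  have hX0 : 0 < X.card := card_pos.mpr hX
  have hXn : X.card ≤ Fintype.card V := card_le_univ X
  have h5 : X.card * (2 * t ^ 2) ≤ X.card * (9 * Fintype.card V * A) := by
    calc X.card * (2 * t ^ 2) = (2 * X.card) * t ^ 2 := by ring
      _ ≤ (b * b * A) * t ^ 2 := Nat.mul_le_mul_right _ h4
      _ = (b * t) * (b * t) * A := by ring
      _ ≤ (3 * X.card) * (3 * X.card) * A := Nat.mul_le_mul_right _ (Nat.mul_le_mul h1 h1)
      _ = X.card * (9 * X.card * A) := by ring
      _ ≤ _ := Nat.mul_le_mul_left _ (Nat.mul_le_mul_right _ (Nat.mul_le_mul_left _ hXn))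
  exact absurd (Nat.le_of_mul_le_mul_left h5 hX0) (by omega)

/-- Sublists of size two in which all colours are rare. -/
lemma exists_sublists (M : V → Finset C) (A t : ℕ) (hM : ∀ v, (M v).card = 3)
    (hA : ∀ c c', c ≠ c' → (univ.filter fun v => c ∈ M v ∧ c' ∈ M v).card < A)
    (hnum : 9 * Fintype.card V * A < 2 * t ^ 2) (X : Finset V) :
    ∃ N : V → Finset C, (∀ v ∈ X, N v ⊆ M v ∧ (N v).card = 2) ∧
      ∀ c, (X.filter fun v => c ∈ N v).card ≤ t := by
  induction X using Finset.strongInduction with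
  | H X ih =>
    rcases X.eq_empty_or_nonempty with rfl | hX
    · exact ⟨fun _ => ∅, by simp, by simp⟩
    · obtain ⟨v, hv, hv2⟩ := exists_rare M A t hM hA hnum X hX
      obtain ⟨N, hN1, hN2⟩ := ih (X.erase v) (erase_ssubset hv)
      obtain ⟨W, hW, hWc⟩ := exists_subset_card_eq hv2
      refine ⟨Function.update N v W, ?_, ?_⟩
      · intro u hu
        by_cases huv : u = v
        · subst huv
          rw [Function.update_self]
          exact ⟨fun c hc => (mem_filter.mp (hW hc)).1, hWc⟩
        · rw [Function.update_of_ne huv]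
          exact hN1 u (mem_erase.mpr ⟨huv, hu⟩)
      · intro c
        by_cases hc : c ∈ W
        · refine le_trans (card_le_card ?_) (mem_filter.mp (hW hc)).2
          intro u hu
          obtain ⟨hu1, hu2⟩ := mem_filter.mp hu
          refine mem_filter.mpr ⟨hu1, ?_⟩
          by_cases huv : u = v
          · subst huv
            rw [Function.update_self] at hu2
            exact (mem_filter.mp (hW hu2)).1
          · rw [Function.update_of_ne huv] at hu2
            exact (hN1 u (mem_erase.mpr ⟨huv, hu1⟩)).1 hu2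
        · refine le_trans (card_le_card ?_) (hN2 c)
          intro u hu
          obtain ⟨hu1, hu2⟩ := mem_filter.mp hu
          have huv : u ≠ v := by
            rintro rfl
            rw [Function.update_self] at hu2
            exact hc hu2
          rw [Function.update_of_ne huv] at hu2
          exact mem_filter.mpr ⟨mem_erase.mpr ⟨huv, hu1⟩, hu2⟩

end Colouring

/-- The separation choice number of a sparse hypergraph with a dense shadow is at most three. -/
theorem sep_three {V : Type} [Fintype V] [DecidableEq V] (E : Finset (Finset V)) (A t : ℕ)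
    (h2 : ∀ T : Finset V, A ≤ T.card → ∃ e ∈ E, ∃ u ∈ e, ∃ v ∈ e, u ≠ v ∧ u ∈ T ∧ v ∈ T)
    (h3 : ∀ S : Finset V, S.card ≤ t → 2 * (E.filter fun e => e ⊆ S).card ≤ S.card)
    (hnum : 9 * Fintype.card V * A < 2 * t ^ 2) (hE : ∀ e ∈ E, 2 ≤ e.card) :
    SepChoosable E 3 := by
  classical
  intro C _ L hL hsep
  have h0 : ∀ v, ∃ M ⊆ L v, M.card = 3 := fun v => exists_subset_card_eq (hL v)
  choose M hM hM3 using h0
  have hA : ∀ c c', c ≠ c' → (univ.filter fun v => c ∈ M v ∧ c' ∈ M v).card < A := by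
    intro c c' hcc
    by_contra hcon
    push Not at hcon
    obtain ⟨e, he, u, hu, v, hv, huv, huT, hvT⟩ := h2 _ hcon
    have h4 := hsep e he u hu v hv huv
    have h5 : ({c, c'} : Finset C) ⊆ L u ∩ L v := by
      have h6 := (mem_filter.mp huT).2
      have h7 := (mem_filter.mp hvT).2
      intro x hx
      rw [mem_insert, mem_singleton] at hx
      rcases hx with rfl | rfl
      · exact mem_inter.mpr ⟨hM u h6.1, hM v h7.1⟩
      · exact mem_inter.mpr ⟨hM u h6.2, hM v h7.2⟩
    have h8 := card_le_card h5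
    rw [card_pair hcc] at h8
    omega
  obtain ⟨N, hN1, hN2⟩ := exists_sublists M A t hM3 hA hnum univ
  have hNM : ∀ v, N v ⊆ M v := fun v => (hN1 v (mem_univ v)).1
  have hNc : ∀ v, (N v).card = 2 := fun v => (hN1 v (mem_univ v)).2
  -- the dangerous edges
  set 𝓔 := E.filter fun e => ∃ c, ∀ v ∈ e, c ∈ N v with h𝓔
  have hall : ∀ F : Finset {e // e ∈ 𝓔}, F.card ≤ (F.biUnion fun e => e.1).card := by
    intro F
    set U := F.biUnion fun e => e.1 with hU
    have k1 : F.card ≤ ∑ c ∈ U.biUnion N, (F.filter fun e => ∀ v ∈ e.1, c ∈ N v).card := by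
      refine le_trans (card_le_card ?_) card_biUnion_le
      intro e he
      obtain ⟨heE, c, hc⟩ := mem_filter.mp e.2
      obtain ⟨v, hv⟩ : e.1.Nonempty := card_pos.mp (by have := hE e.1 heE; omega)
      exact mem_biUnion.mpr ⟨c, mem_biUnion.mpr ⟨v, mem_biUnion.mpr ⟨e, he, hv⟩, hc v hv⟩,
        mem_filter.mpr ⟨he, hc⟩⟩
    have k2 : ∀ c ∈ U.biUnion N, 2 * (F.filter fun e => ∀ v ∈ e.1, c ∈ N v).card ≤
        (U.filter fun v => c ∈ N v).card := by
      intro c _
      refine le_trans (Nat.mul_le_mul_left 2 ?_) (h3 (U.filter fun v => c ∈ N v) ?_)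
      · refine card_le_card_of_injOn (fun e => e.1) ?_ ?_
        · intro e he
          obtain ⟨he1, he2⟩ := mem_filter.mp (mem_coe.mp he)
          refine mem_coe.mpr (mem_filter.mpr ⟨(mem_filter.mp e.2).1, ?_⟩)
          intro v hv
          exact mem_filter.mpr ⟨mem_biUnion.mpr ⟨e, he1, hv⟩, he2 v hv⟩
        · intro e _ e' _ h
          exact Subtype.ext h
      · refine le_trans (card_le_card ?_) (hN2 c)
        intro v hv
        exact mem_filter.mpr ⟨mem_univ _, (mem_filter.mp hv).2⟩
    have k3 : ∑ c ∈ U.biUnion N, (U.filter fun v => c ∈ N v).card = 2 * U.card := by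
      simp only [card_filter]
      rw [sum_comm]
      have : ∀ v ∈ U, ∑ c ∈ U.biUnion N, (if c ∈ N v then 1 else 0) = 2 := by
        intro v hv
        rw [← Finset.sum_filter, ← card_eq_sum_ones, ← hNc v]
        congr 1
        ext c
        rw [mem_filter]
        exact ⟨fun h => h.2, fun h => ⟨mem_biUnion.mpr ⟨v, hv, h⟩, h⟩⟩
      rw [Finset.sum_congr rfl this, sum_const, smul_eq_mul, mul_comm]
    have k4 := Finset.sum_le_sum k2
    rw [← Finset.mul_sum, k3] at k4
    omega
  obtain ⟨p, hp1, hp2⟩ := (Finset.all_card_le_biUnion_card_iff_exists_injective _).mp hall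
  -- the colours
  have hcol : ∀ v, ∃ c ∈ N v, ∀ e : {e // e ∈ 𝓔}, p e = v → ¬ ∀ u ∈ e.1, c ∈ N u := by
    intro v
    by_cases hv : ∃ e : {e // e ∈ 𝓔}, p e = v
    · obtain ⟨e, he⟩ := hv
      obtain ⟨heE, c, hc⟩ := mem_filter.mp e.2
      have h4 : ∃ c' ∈ N v, c' ≠ c := by
        by_contra hcon
        push Not at hcon
        have : N v ⊆ {c} := fun x hx => mem_singleton.mpr (hcon x hx)
        have := card_le_card this
        rw [hNc v, card_singleton] at this
        omega
      obtain ⟨c', hc', hcc'⟩ := h4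
      refine ⟨c', hc', fun e' he' hall' => ?_⟩
      have hee' : e' = e := hp1 (he'.trans he.symm)
      subst hee'
      -- a second vertex of the edge
      obtain ⟨u, hu, w, hw, huw⟩ := one_lt_card.mp (hE e'.1 heE)
      have h5 := hsep e'.1 heE u hu w hw huw
      have h6 : ({c', c} : Finset C) ⊆ L u ∩ L w := by
        intro x hx
        rw [mem_insert, mem_singleton] at hx
        rcases hx with rfl | rfl
        · exact mem_inter.mpr ⟨hM u (hNM u (hall' u hu)), hM w (hNM w (hall' w hw))⟩
        · exact mem_inter.mpr ⟨hM u (hNM u (hc u hu)), hM w (hNM w (hc w hw))⟩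
      have h7 := card_le_card h6
      rw [card_pair hcc'] at h7
      omega
    · push Not at hv
      obtain ⟨c, hc⟩ : (N v).Nonempty := card_pos.mp (by rw [hNc v]; norm_num)
      exact ⟨c, hc, fun e he => absurd he (hv e)⟩
  choose φ hφ1 hφ2 using hcol
  refine ⟨φ, fun v => hM v (hNM v (hφ1 v)), ?_⟩
  rintro e he ⟨c, hc⟩
  have hdang : e ∈ 𝓔 := mem_filter.mpr ⟨he, c, fun v hv => by rw [← hc v hv]; exact hφ1 v⟩
  have h8 := hφ2 (p ⟨e, hdang⟩) ⟨e, hdang⟩ rfl
  apply h8
  intro u hu
  rw [hc _ (hp2 ⟨e, hdang⟩), ← hc u hu]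
  exact hφ1 u


section Prob

variable {X : Type} [Fintype X]

lemma mgf (P : X → Prop) [DecidablePred P] (m : ℕ) (a : ℝ) :
    ∑ ω : Fin m → X, a ^ (univ.filter fun i => P (ω i)).card =
      (Fintype.card X + (a - 1) * (univ.filter P).card) ^ m := by
  have h1 : ((Fintype.card X : ℝ) + (a - 1) * (univ.filter P).card) =
      ∑ x : X, if P x then a else 1 := by
    rw [Finset.sum_ite, sum_const, sum_const, nsmul_eq_mul, nsmul_eq_mul]
    have h2 := card_filter_add_card_filter_not (s := (univ : Finset X)) P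
    rw [card_univ] at h2
    have h3 : (Fintype.card X : ℝ) = (univ.filter P).card + (univ.filter fun x => ¬ P x).card := by
      rw [← h2]; push_cast; ring
    rw [h3]
    ring
  rw [h1, Fintype.sum_pow]
  refine Finset.sum_congr rfl fun ω _ => ?_
  rw [Finset.prod_ite, prod_const, prod_const_one, mul_one]

/-- The probability of many hits. -/
lemma tail_upper (P : X → Prop) [DecidablePred P] (m ℓ : ℕ) (hm : 0 < m) (hℓ : 0 < ℓ)
    (hP : 0 < (univ.filter P).card) (q : ℝ)
    (hq : q = (univ.filter P).card * m / (Fintype.card X * ℓ)) (hq1 : q ≤ 1) :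
    ((univ.filter fun ω : Fin m → X => ℓ ≤ (univ.filter fun i => P (ω i)).card).card : ℝ) ≤
      (Fintype.card X : ℝ) ^ m * (3 * q) ^ ℓ := by
  have hX : 0 < Fintype.card X := lt_of_lt_of_le hP (card_le_univ _)
  have hX' : (0 : ℝ) < Fintype.card X := by exact_mod_cast hX
  have hP' : (0 : ℝ) < (univ.filter P).card := by exact_mod_cast hP
  have hm' : (0 : ℝ) < m := by exact_mod_cast hm
  have hℓ' : (0 : ℝ) < ℓ := by exact_mod_cast hℓ
  have hq0 : 0 < q := by rw [hq]; positivity
  have hinv : 1 ≤ q⁻¹ := (one_le_inv₀ hq0).mpr hq1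
  set B := univ.filter fun ω : Fin m → X => ℓ ≤ (univ.filter fun i => P (ω i)).card with hB
  have h1 : (B.card : ℝ) * q⁻¹ ^ ℓ ≤ ∑ ω : Fin m → X, q⁻¹ ^ (univ.filter fun i => P (ω i)).card := by
    calc (B.card : ℝ) * q⁻¹ ^ ℓ = ∑ ω ∈ B, q⁻¹ ^ ℓ := by rw [sum_const, nsmul_eq_mul]
      _ ≤ ∑ ω ∈ B, q⁻¹ ^ (univ.filter fun i => P (ω i)).card :=
          Finset.sum_le_sum fun ω hω => pow_le_pow_right₀ hinv (mem_filter.mp hω).2
      _ ≤ _ := Finset.sum_le_sum_of_subset_of_nonneg (subset_univ _) fun _ _ _ => by positivity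
  rw [mgf] at h1
  have h2 : (Fintype.card X + (q⁻¹ - 1) * (univ.filter P).card : ℝ) ≤
      Fintype.card X * Real.exp (ℓ / m) := by
    have h3 : (1 : ℝ) + (q⁻¹ - 1) * (univ.filter P).card / Fintype.card X ≤ Real.exp (ℓ / m) := by
      have h4 : (q⁻¹ - 1) * (univ.filter P).card / Fintype.card X ≤ (ℓ : ℝ) / m := by
        have h5 : q⁻¹ * (univ.filter P).card / Fintype.card X = (ℓ : ℝ) / m := by
          rw [hq]
          field_simp
        have h6 : (q⁻¹ - 1) * (univ.filter P).card / Fintype.card X ≤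
            q⁻¹ * (univ.filter P).card / Fintype.card X := by
          gcongr
          linarith
        linarith
      have h7 := Real.add_one_le_exp ((ℓ : ℝ) / m)
      linarith
    calc (Fintype.card X + (q⁻¹ - 1) * (univ.filter P).card : ℝ) =
        Fintype.card X * (1 + (q⁻¹ - 1) * (univ.filter P).card / Fintype.card X) := by
          field_simp
      _ ≤ _ := by gcongr
  have h3 : (Fintype.card X + (q⁻¹ - 1) * (univ.filter P).card : ℝ) ^ m ≤
      (Fintype.card X : ℝ) ^ m * 3 ^ ℓ := by
    calc (Fintype.card X + (q⁻¹ - 1) * (univ.filter P).card : ℝ) ^ m ≤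
        (Fintype.card X * Real.exp (ℓ / m)) ^ m := by
          refine pow_le_pow_left₀ ?_ h2 m
          have : 0 ≤ q⁻¹ - 1 := by linarith
          positivity
      _ = (Fintype.card X : ℝ) ^ m * Real.exp 1 ^ ℓ := by
          rw [mul_pow, ← Real.exp_nat_mul, ← Real.exp_nat_mul]
          congr 2
          field_simp
      _ ≤ _ := by
          gcongr
          exact Real.exp_one_lt_three.le
  have h4 : (B.card : ℝ) = (B.card : ℝ) * q⁻¹ ^ ℓ * q ^ ℓ := by
    rw [mul_assoc, ← mul_pow, inv_mul_cancel₀ hq0.ne', one_pow, mul_one]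
  rw [h4, mul_pow]
  calc (B.card : ℝ) * q⁻¹ ^ ℓ * q ^ ℓ ≤ ((Fintype.card X : ℝ) ^ m * 3 ^ ℓ) * q ^ ℓ :=
        mul_le_mul_of_nonneg_right (h1.trans h3) (by positivity)
    _ = _ := by ring

/-- The probability of few hits. -/
lemma tail_lower (P : X → Prop) [DecidablePred P] (m R : ℕ) (hX : 0 < Fintype.card X) :
    ((univ.filter fun ω : Fin m → X => (univ.filter fun i => P (ω i)).card ≤ R).card : ℝ) ≤
      (Fintype.card X : ℝ) ^ m * (2 ^ R *
        Real.exp (-((univ.filter P).card * m / Fintype.card X / 2))) := by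
  have hX' : (0 : ℝ) < Fintype.card X := by exact_mod_cast hX
  have hPX : ((univ.filter P).card : ℝ) ≤ Fintype.card X := by exact_mod_cast card_le_univ _
  set B := univ.filter fun ω : Fin m → X => (univ.filter fun i => P (ω i)).card ≤ R with hB
  have h1 : (B.card : ℝ) * (1 / 2) ^ R ≤
      ∑ ω : Fin m → X, (1 / 2 : ℝ) ^ (univ.filter fun i => P (ω i)).card := by
    calc (B.card : ℝ) * (1 / 2) ^ R = ∑ ω ∈ B, (1 / 2 : ℝ) ^ R := by rw [sum_const, nsmul_eq_mul]
      _ ≤ ∑ ω ∈ B, (1 / 2 : ℝ) ^ (univ.filter fun i => P (ω i)).card :=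
          Finset.sum_le_sum fun ω hω => pow_le_pow_of_le_one (by norm_num) (by norm_num)
            (mem_filter.mp hω).2
      _ ≤ _ := Finset.sum_le_sum_of_subset_of_nonneg (subset_univ _) fun _ _ _ => by positivity
  rw [mgf] at h1
  have h2 : (Fintype.card X + (1 / 2 - 1) * (univ.filter P).card : ℝ) ≤
      Fintype.card X * Real.exp (-((univ.filter P).card / Fintype.card X / 2)) := by
    have h3 := Real.add_one_le_exp (-((univ.filter P).card / Fintype.card X / 2 : ℝ))
    calc (Fintype.card X + (1 / 2 - 1) * (univ.filter P).card : ℝ) =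
        Fintype.card X * (-((univ.filter P).card / Fintype.card X / 2) + 1) := by
          field_simp
          ring
      _ ≤ _ := by gcongr
  have h3 : (Fintype.card X + (1 / 2 - 1) * (univ.filter P).card : ℝ) ^ m ≤
      (Fintype.card X : ℝ) ^ m * Real.exp (-((univ.filter P).card * m / Fintype.card X / 2)) := by
    calc (Fintype.card X + (1 / 2 - 1) * (univ.filter P).card : ℝ) ^ m ≤
        (Fintype.card X * Real.exp (-((univ.filter P).card / Fintype.card X / 2))) ^ m := by
          refine pow_le_pow_left₀ ?_ h2 m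
          linarith
      _ = _ := by
          rw [mul_pow, ← Real.exp_nat_mul]
          congr 2
          ring
  have h4 : (B.card : ℝ) = (B.card : ℝ) * (1 / 2) ^ R * 2 ^ R := by
    rw [mul_assoc, ← mul_pow]
    norm_num
  rw [h4]
  calc (B.card : ℝ) * (1 / 2) ^ R * 2 ^ R ≤ ((Fintype.card X : ℝ) ^ m *
        Real.exp (-((univ.filter P).card * m / Fintype.card X / 2))) * 2 ^ R :=
        mul_le_mul_of_nonneg_right (h1.trans h3) (by positivity)
    _ = _ := by ring

end Prob

/-- `C(n,s) ≤ (3n/s)^s`. -/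
lemma choose_bound (n s : ℕ) (hs : 0 < s) : ((n.choose s : ℕ) : ℝ) ≤ (3 * (n : ℝ) / s) ^ s := by
  have hs' : (0 : ℝ) < s := by exact_mod_cast hs
  have h1 : ((n.choose s : ℕ) : ℝ) ≤ (n : ℝ) ^ s / s.factorial := Nat.choose_le_pow_div s n
  have h2 : (s : ℝ) ^ s / s.factorial ≤ 3 ^ s := by
    refine (Real.pow_div_factorial_le_exp (s : ℝ) hs'.le s).trans ?_
    rw [← Real.exp_one_pow]
    exact pow_le_pow_left₀ (Real.exp_pos 1).le Real.exp_one_lt_three.le s
  have h3 : (0 : ℝ) < s.factorial := by exact_mod_cast Nat.factorial_pos s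
  calc ((n.choose s : ℕ) : ℝ) ≤ (n : ℝ) ^ s / s.factorial := h1
    _ = ((n : ℝ) / s) ^ s * ((s : ℝ) ^ s / s.factorial) := by
        rw [div_pow]
        field_simp
    _ ≤ ((n : ℝ) / s) ^ s * 3 ^ s := by gcongr
    _ = _ := by rw [← mul_pow]; congr 1; ring

/-! ### Counting tuples -/

lemma card_sub_pow (n r : ℕ) (S : Finset (Fin n)) :
    (univ.filter fun x : Fin r → Fin n => ∀ a, x a ∈ S).card = S.card ^ r := by
  have : (univ.filter fun x : Fin r → Fin n => ∀ a, x a ∈ S) = Fintype.piFinset fun _ => S := by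
    ext x
    simp
  rw [this, Fintype.card_piFinset, prod_const, card_univ, Fintype.card_fin]

lemma card_two (n r : ℕ) (S : Finset (Fin n)) :
    (univ.filter fun x : Fin (r + 2) → Fin n => x 0 ∈ S ∧ x 1 ∈ S).card = S.card ^ 2 * n ^ r := by
  have : (univ.filter fun x : Fin (r + 2) → Fin n => x 0 ∈ S ∧ x 1 ∈ S) =
      Fintype.piFinset (Fin.cons S (Fin.cons S fun _ => univ) : Fin (r + 2) → Finset (Fin n)) := by
    ext x
    rw [mem_filter, Fintype.mem_piFinset, Fin.forall_fin_succ, Fin.forall_fin_succ]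
    simp
  rw [this, Fintype.card_piFinset, Fin.prod_univ_succ, Fin.prod_univ_succ]
  simp
  ring


section Bad

variable {n r m : ℕ}

lemma cnt1 (i : Fin m) (a b : Fin r) (hab : a ≠ b) :
    (univ.filter fun ω : Fin m → Fin r → Fin n => ω i a = ω i b).card * n ≤
      Fintype.card (Fin m → Fin r → Fin n) := by
  classical
  have h : Function.Injective (fun p : {ω : Fin m → Fin r → Fin n // ω i a = ω i b} × Fin n =>
      Function.update p.1.1 i (Function.update (p.1.1 i) a p.2)) := by
    rintro ⟨⟨ω, hω⟩, x⟩ ⟨⟨ω', hω'⟩, x'⟩ h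
    simp only at h
    have hi := congrFun h i
    rw [Function.update_self, Function.update_self] at hi
    have hx : x = x' := by
      have := congrFun hi a
      rwa [Function.update_self, Function.update_self] at this
    have hωi : ω i = ω' i := by
      funext c
      by_cases hc : c = a
      · subst hc
        rw [hω, hω']
        have := congrFun hi b
        rwa [Function.update_of_ne hab.symm, Function.update_of_ne hab.symm] at this
      · have := congrFun hi c
        rwa [Function.update_of_ne hc, Function.update_of_ne hc] at this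
    have hωω : ω = ω' := by
      funext j
      by_cases hj : j = i
      · rw [hj, hωi]
      · have := congrFun h j
        rwa [Function.update_of_ne hj, Function.update_of_ne hj] at this
    subst hx
    subst hωω
    rfl
  have h2 := Fintype.card_le_of_injective _ h
  rw [Fintype.card_prod, Fintype.card_fin, Fintype.card_subtype] at h2
  exact h2

lemma cnt2 (i j : Fin m) (hij : i ≠ j) (a b a' b' : Fin r) (hab : a ≠ b) :
    (univ.filter fun ω : Fin m → Fin r → Fin n => ω i a = ω j a' ∧ ω i b = ω j b').card * (n * n) ≤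
      Fintype.card (Fin m → Fin r → Fin n) := by
  classical
  have h : Function.Injective
      (fun p : {ω : Fin m → Fin r → Fin n // ω i a = ω j a' ∧ ω i b = ω j b'} × (Fin n × Fin n) =>
        Function.update p.1.1 i (Function.update (Function.update (p.1.1 i) a p.2.1) b p.2.2)) := by
    rintro ⟨⟨ω, hω⟩, x, y⟩ ⟨⟨ω', hω'⟩, x', y'⟩ h
    simp only at h
    have hi := congrFun h i
    rw [Function.update_self, Function.update_self] at hi
    have hj : ∀ j, j ≠ i → ω j = ω' j := by
      intro j hj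
      have := congrFun h j
      rwa [Function.update_of_ne hj, Function.update_of_ne hj] at this
    have hy : y = y' := by
      have := congrFun hi b
      rwa [Function.update_self, Function.update_self] at this
    have hx : x = x' := by
      have := congrFun hi a
      rwa [Function.update_of_ne hab, Function.update_of_ne hab, Function.update_self,
        Function.update_self] at this
    have hωi : ω i = ω' i := by
      funext c
      by_cases hcb : c = b
      · subst hcb
        rw [hω.2, hω'.2, hj j hij.symm]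
      · by_cases hc : c = a
        · subst hc
          rw [hω.1, hω'.1, hj j hij.symm]
        · have := congrFun hi c
          rwa [Function.update_of_ne hcb, Function.update_of_ne hcb, Function.update_of_ne hc,
            Function.update_of_ne hc] at this
    have hωω : ω = ω' := by
      funext j
      by_cases hj' : j = i
      · rw [hj', hωi]
      · exact hj j hj'
    subst hx
    subst hy
    subst hωω
    rfl
  have h2 := Fintype.card_le_of_injective _ h
  rw [Fintype.card_prod, Fintype.card_prod, Fintype.card_fin, Fintype.card_subtype] at h2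
  exact h2

/-- The tuple `i` is bad: it repeats a vertex or it meets another tuple at two places. -/
def IsBad (ω : Fin m → Fin r → Fin n) (i : Fin m) : Prop :=
  (∃ a b, a ≠ b ∧ ω i a = ω i b) ∨
    ∃ j a b a' b', i ≠ j ∧ a ≠ b ∧ ω i a = ω j a' ∧ ω i b = ω j b'

/-- The expected number of bad tuples. -/
lemma sum_bad (d : ℕ) (hm : m = d * n) (hn : 0 < n) [∀ ω : Fin m → Fin r → Fin n, DecidablePred (IsBad ω)] :
    ∑ ω : Fin m → Fin r → Fin n, (univ.filter fun i => IsBad ω i).card ≤
      (d * r ^ 2 + d ^ 2 * r ^ 4) * Fintype.card (Fin m → Fin r → Fin n) := by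
  classical
  set W := Fintype.card (Fin m → Fin r → Fin n) with hW
  have h1 : ∀ ω : Fin m → Fin r → Fin n, (univ.filter fun i => IsBad ω i).card ≤
      ∑ i : Fin m, ((∑ a : Fin r, ∑ b : Fin r, if a ≠ b ∧ ω i a = ω i b then 1 else 0) +
        ∑ j : Fin m, ∑ a : Fin r, ∑ b : Fin r, ∑ a' : Fin r, ∑ b' : Fin r,
          if i ≠ j ∧ a ≠ b ∧ ω i a = ω j a' ∧ ω i b = ω j b' then 1 else 0) := by
    intro ω
    rw [card_filter]
    refine Finset.sum_le_sum fun i _ => ?_
    split_ifs with h
    · rcases h with ⟨a, b, h⟩ | ⟨j, a, b, a', b', h⟩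
      · refine le_trans ?_ (Nat.le_add_right _ _)
        refine le_trans ?_ (Finset.single_le_sum (fun _ _ => Nat.zero_le _) (mem_univ a))
        refine le_trans ?_ (Finset.single_le_sum (fun _ _ => Nat.zero_le _) (mem_univ b))
        rw [if_pos h]
      · refine le_trans ?_ (Nat.le_add_left _ _)
        refine le_trans ?_ (Finset.single_le_sum (fun _ _ => Nat.zero_le _) (mem_univ j))
        refine le_trans ?_ (Finset.single_le_sum (fun _ _ => Nat.zero_le _) (mem_univ a))
        refine le_trans ?_ (Finset.single_le_sum (fun _ _ => Nat.zero_le _) (mem_univ b))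
        refine le_trans ?_ (Finset.single_le_sum (fun _ _ => Nat.zero_le _) (mem_univ a'))
        refine le_trans ?_ (Finset.single_le_sum (fun _ _ => Nat.zero_le _) (mem_univ b'))
        rw [if_pos h]
    · exact Nat.zero_le _
  have c1 : ∀ (i : Fin m) (a b : Fin r),
      (∑ ω : Fin m → Fin r → Fin n, if a ≠ b ∧ ω i a = ω i b then 1 else 0) * n ≤ W := by
    intro i a b
    by_cases hab : a ≠ b
    · simp only [hab, ne_eq, not_false_eq_true, true_and]
      rw [← card_filter]
      exact cnt1 i a b hab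
    · simp [hab]
  have c2 : ∀ (i j : Fin m) (a b a' b' : Fin r),
      (∑ ω : Fin m → Fin r → Fin n,
        if i ≠ j ∧ a ≠ b ∧ ω i a = ω j a' ∧ ω i b = ω j b' then 1 else 0) * (n * n) ≤ W := by
    intro i j a b a' b'
    by_cases hab : a ≠ b
    · by_cases hij : i ≠ j
      · simp only [hab, hij, ne_eq, not_false_eq_true, true_and]
        rw [← card_filter]
        exact cnt2 i j hij a b a' b' hab
      · simp [hij]
    · simp [hab]
  have h2 : (∑ ω : Fin m → Fin r → Fin n, (univ.filter fun i => IsBad ω i).card) * (n * n) ≤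
      ∑ i : Fin m, ((∑ a : Fin r, ∑ b : Fin r, n * W) +
        ∑ j : Fin m, ∑ a : Fin r, ∑ b : Fin r, ∑ a' : Fin r, ∑ b' : Fin r, W) := by
    refine le_trans (Nat.mul_le_mul_right _ (Finset.sum_le_sum fun ω _ => h1 ω)) ?_
    rw [Finset.sum_comm, Finset.sum_mul]
    refine Finset.sum_le_sum fun i _ => ?_
    rw [Finset.sum_add_distrib, add_mul]
    refine Nat.add_le_add ?_ ?_
    · rw [Finset.sum_comm, Finset.sum_mul]
      refine Finset.sum_le_sum fun a _ => ?_
      rw [Finset.sum_comm, Finset.sum_mul]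
      refine Finset.sum_le_sum fun b _ => ?_
      rw [← mul_assoc, mul_comm n W]
      exact Nat.mul_le_mul_right _ (c1 i a b)
    · rw [Finset.sum_comm, Finset.sum_mul]
      refine Finset.sum_le_sum fun j _ => ?_
      rw [Finset.sum_comm, Finset.sum_mul]
      refine Finset.sum_le_sum fun a _ => ?_
      rw [Finset.sum_comm, Finset.sum_mul]
      refine Finset.sum_le_sum fun b _ => ?_
      rw [Finset.sum_comm, Finset.sum_mul]
      refine Finset.sum_le_sum fun a' _ => ?_
      rw [Finset.sum_comm, Finset.sum_mul]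
      refine Finset.sum_le_sum fun b' _ => ?_
      exact c2 i j a b a' b'
  simp only [sum_const, card_univ, Fintype.card_fin, smul_eq_mul] at h2
  have h3 : m * (r * (r * (n * W)) + m * (r * (r * (r * (r * W))))) =
      ((d * r ^ 2 + d ^ 2 * r ^ 4) * W) * (n * n) := by
    rw [hm]; ring
  rw [h3] at h2
  exact Nat.le_of_mul_le_mul_right h2 (Nat.mul_pos hn hn)

end Bad


/-! ### The three bad events -/

section Events

lemma num3 (n g s r : ℕ) (hg : 839808 ≤ g) (hn : 0 < n) (hs : 0 < s) (hsn : s * g ≤ 3 * n)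
    (hr : 8 ≤ r) (q : ℝ)
    (hq : q = (s : ℝ) ^ r * ((4 * g ^ 4 * n : ℕ) : ℝ) / ((n : ℝ) ^ r * ((s / 2 + 1 : ℕ) : ℝ))) :
    q ≤ 1 ∧ ((n.choose s : ℕ) : ℝ) * (3 * q) ^ (s / 2 + 1) ≤ (1 / 4) ^ s := by
  have hn' : (0 : ℝ) < n := by exact_mod_cast hn
  have hs' : (0 : ℝ) < s := by exact_mod_cast hs
  have hg' : (839808 : ℝ) ≤ g := by exact_mod_cast hg
  have hg0 : (0 : ℝ) < g := by linarith
  obtain ⟨k, rfl⟩ : ∃ k, r = k + 8 := ⟨r - 8, by omega⟩
  set ℓ := s / 2 + 1 with hℓ
  have hℓs : (s : ℝ) / 2 ≤ ℓ := by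
    have : s ≤ 2 * ℓ := by omega
    have h2 : (s : ℝ) ≤ 2 * ℓ := by exact_mod_cast this
    linarith
  have hℓ0 : (0 : ℝ) < ℓ := by linarith [hs']
  set x : ℝ := s / n with hx
  have hx0 : 0 < x := by positivity
  have hxg : x * g ≤ 3 := by
    rw [hx, div_mul_eq_mul_div, div_le_iff₀ hn']
    exact_mod_cast hsn
  have hx1 : x ≤ 1 := by nlinarith
  have hq1 : q ≤ 8 * g ^ 4 * x ^ 7 := by
    have e1 : q = x ^ (k + 8) * (4 * g ^ 4 * n) / ℓ := by
      rw [hq, hx, div_pow]
      push_cast
      field_simp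
    rw [e1]
    have e2 : x ^ (k + 8) ≤ x ^ 8 := pow_le_pow_of_le_one hx0.le hx1 (by omega)
    calc x ^ (k + 8) * (4 * g ^ 4 * n) / ℓ ≤ x ^ 8 * (4 * g ^ 4 * n) / (s / 2) := by gcongr
      _ = 8 * g ^ 4 * x ^ 7 := by
          have : (n : ℝ) = s / x := by rw [hx]; field_simp
          rw [this]
          field_simp
          ring
  have hq0 : 0 ≤ q := by rw [hq]; positivity
  constructor
  · refine hq1.trans ?_
    have h1 : (x * g) ^ 7 ≤ 3 ^ 7 := pow_le_pow_left₀ (by positivity) hxg 7
    have h2 : 8 * g ^ 4 * x ^ 7 * g ^ 3 ≤ 1 * (g : ℝ) ^ 3 := by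
      have h3 : (8 * 3 ^ 7 : ℝ) ≤ (g : ℝ) ^ 3 := by
        have : (839808 : ℝ) ^ 3 ≤ (g : ℝ) ^ 3 := pow_le_pow_left₀ (by norm_num) hg' 3
        refine le_trans ?_ this
        norm_num
      have h4 : 8 * g ^ 4 * x ^ 7 * (g : ℝ) ^ 3 = 8 * (x * g) ^ 7 := by ring
      rw [h4]
      linarith
    exact le_of_mul_le_mul_right h2 (by positivity)
  · have h1 : (3 / x) ^ 2 * (3 * q) ≤ 1 / 16 := by
      have h2 : (3 / x) ^ 2 * (3 * q) ≤ (3 / x) ^ 2 * (3 * (8 * g ^ 4 * x ^ 7)) := by gcongr
      refine h2.trans ?_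
      have h3 : (3 / x) ^ 2 * (3 * (8 * g ^ 4 * x ^ 7)) = 216 * g ^ 4 * x ^ 5 := by
        field_simp
        ring
      rw [h3]
      have h4 : (x * g) ^ 5 ≤ 3 ^ 5 := pow_le_pow_left₀ (by positivity) hxg 5
      have h5 : 216 * g ^ 4 * x ^ 5 * g ≤ 1 / 16 * g := by
        have h6 : 216 * g ^ 4 * x ^ 5 * (g : ℝ) = 216 * (x * g) ^ 5 := by ring
        rw [h6]
        linarith
      exact le_of_mul_le_mul_right h5 hg0
    calc ((n.choose s : ℕ) : ℝ) * (3 * q) ^ ℓ ≤ (3 * (n : ℝ) / s) ^ s * (3 * q) ^ ℓ := by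
          gcongr
          exact choose_bound n s hs
      _ = (3 / x) ^ s * (3 * q) ^ ℓ := by
          congr 2
          rw [hx]
          field_simp
      _ ≤ (3 / x) ^ (2 * ℓ) * (3 * q) ^ ℓ := by
          gcongr
          · rw [le_div_iff₀ hx0]; linarith
          · omega
      _ = ((3 / x) ^ 2 * (3 * q)) ^ ℓ := by rw [pow_mul, ← mul_pow]
      _ ≤ (1 / 16) ^ ℓ := pow_le_pow_left₀ (by positivity) h1 ℓ
      _ = (1 / 4) ^ (2 * ℓ) := by rw [pow_mul]; norm_num
      _ ≤ (1 / 4) ^ s := pow_le_pow_of_le_one (by norm_num) (by norm_num) (by omega)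

lemma geom_bound (t : ℕ) : ∑ s ∈ Finset.Icc 1 t, (1 / 4 : ℝ) ^ s ≤ 1 / 3 := by
  have h : ∀ t : ℕ, ∑ s ∈ Finset.Icc 1 t, (1 / 4 : ℝ) ^ s = 1 / 3 - 1 / 3 * (1 / 4) ^ t := by
    intro t
    induction t with
    | zero => simp
    | succ t ih =>
      rw [Finset.sum_Icc_succ_top (by omega), ih]
      ring
  rw [h]
  have : (0 : ℝ) < (1 / 4) ^ t := by positivity
  linarith

/-- The existence of a good sequence of tuples. -/
theorem exists_good (r' g N R K n m d : ℕ) (hr : 6 ≤ r') (hg : 839808 ≤ g) (hd : d = 4 * g ^ 4)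
    (hK : K = d * (r' + 2) ^ 2 + d ^ 2 * (r' + 2) ^ 4) (hR : R = 4 * K) (hN : N = R + 3)
    (hn : n = g ^ 2 * N) (hm : m = d * n) :
    ∃ ω : Fin m → Fin (r' + 2) → Fin n, ∃ B : Finset (Fin m), (∀ i, IsBad ω i ↔ i ∈ B) ∧
      B.card ≤ R ∧
      (∀ T : Finset (Fin n), T.card = N → R < (univ.filter fun i => ω i 0 ∈ T ∧ ω i 1 ∈ T).card) ∧
      ∀ S : Finset (Fin n), S.card ≤ 3 * g * N →
        2 * (univ.filter fun i => ∀ a, ω i a ∈ S).card ≤ S.card := by
  classical
  have hg0 : 0 < g := by omega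
  have hN0 : 0 < N := by omega
  have hn0 : 0 < n := by rw [hn]; positivity
  have hd0 : 0 < d := by rw [hd]; positivity
  have hm0 : 0 < m := by rw [hm]; positivity
  have hK0 : 0 < K := by rw [hK]; positivity
  set X := Fin (r' + 2) → Fin n with hX
  have hcX : Fintype.card X = n ^ (r' + 2) := by simp [hX]
  have hcX0 : 0 < Fintype.card X := by rw [hcX]; positivity
  set W : ℝ := (Fintype.card X : ℝ) ^ m with hW
  have hW0 : 0 < W := by
    have : (0 : ℝ) < Fintype.card X := by exact_mod_cast hcX0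
    positivity
  have hΩ : ((Fintype.card (Fin m → X) : ℕ) : ℝ) = W := by
    rw [Fintype.card_fun, Fintype.card_fin]
    push_cast
    rfl
  -- first event
  set B1 := univ.filter fun ω : Fin m → X => R < (univ.filter fun i => IsBad ω i).card with hB1
  have e1 : (B1.card : ℝ) ≤ W / 4 := by
    have h1 := sum_bad (n := n) (r := r' + 2) (m := m) d hm hn0
    rw [← hK] at h1
    have h2 : B1.card * R ≤ ∑ ω : Fin m → X, (univ.filter fun i => IsBad ω i).card := by
      calc B1.card * R = ∑ ω ∈ B1, R := by rw [sum_const, smul_eq_mul]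
        _ ≤ ∑ ω ∈ B1, (univ.filter fun i => IsBad ω i).card :=
            Finset.sum_le_sum fun ω hω => (mem_filter.mp hω).2.le
        _ ≤ _ := Finset.sum_le_sum_of_subset (subset_univ _)
    have h3 : K * (B1.card * 4) ≤ K * Fintype.card (Fin m → X) := by
      calc K * (B1.card * 4) = B1.card * R := by rw [hR]; ring
        _ ≤ _ := h2.trans h1
    have h4 := Nat.le_of_mul_le_mul_left h3 hK0
    have h5 : (B1.card : ℝ) * 4 ≤ ((Fintype.card (Fin m → X) : ℕ) : ℝ) := by exact_mod_cast h4
    rw [hΩ] at h5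
    linarith
  -- second event
  set B2 := (powersetCard N (univ : Finset (Fin n))).biUnion fun T =>
    univ.filter fun ω : Fin m → X => (univ.filter fun i => ω i 0 ∈ T ∧ ω i 1 ∈ T).card ≤ R with hB2
  have e2 : (B2.card : ℝ) ≤ W / 8 := by
    have h1 : ∀ T ∈ powersetCard N (univ : Finset (Fin n)),
        ((univ.filter fun ω : Fin m → X =>
          (univ.filter fun i => ω i 0 ∈ T ∧ ω i 1 ∈ T).card ≤ R).card : ℝ) ≤
        W * (2 ^ R * Real.exp (-(2 * n : ℝ))) := by
      intro T hT
      have hTc := (mem_powersetCard.mp hT).2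
      have h2 := tail_lower (X := X) (fun x => x 0 ∈ T ∧ x 1 ∈ T) m R hcX0
      have hg' : (g : ℝ) ≠ 0 := by positivity
      have hN' : (N : ℝ) ≠ 0 := by positivity
      have h3 : ((univ.filter fun x : X => x 0 ∈ T ∧ x 1 ∈ T).card : ℝ) * m / Fintype.card X / 2 =
          2 * n := by
        have h4 : (univ.filter fun x : X => x 0 ∈ T ∧ x 1 ∈ T).card = T.card ^ 2 * n ^ r' :=
          card_two n r' T
        rw [h4, hTc, hcX, hm, hd, hn]
        push_cast
        field_simp
        ring
      rw [h3] at h2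
      exact h2
    have h2 : (B2.card : ℝ) ≤ ∑ T ∈ powersetCard N (univ : Finset (Fin n)),
        W * (2 ^ R * Real.exp (-(2 * n : ℝ))) := by
      refine le_trans ?_ (Finset.sum_le_sum h1)
      rw [hB2]
      exact_mod_cast card_biUnion_le
    rw [sum_const, card_powersetCard, card_univ, Fintype.card_fin, nsmul_eq_mul] at h2
    have h3 : ((n.choose N : ℕ) : ℝ) ≤ 2 ^ n := by
      have := Nat.choose_le_two_pow n N
      exact_mod_cast this
    have h4 : Real.exp (-(2 * n : ℝ)) ≤ (1 / 4) ^ n := by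
      have h5 : (4 : ℝ) ≤ Real.exp 2 := by
        have h6 := Real.add_one_le_exp (1 : ℝ)
        have h7 : Real.exp 2 = Real.exp 1 * Real.exp 1 := by rw [← Real.exp_add]; norm_num
        rw [h7]
        nlinarith
      have h8 : Real.exp (-(2 * n : ℝ)) = (Real.exp 2)⁻¹ ^ n := by
        rw [← Real.exp_neg, ← Real.exp_nat_mul]
        congr 1
        ring
      rw [h8, one_div]
      gcongr
    have h5 : (2 : ℝ) ^ (R + 3) ≤ 2 ^ n := by
      refine pow_le_pow_right₀ (by norm_num) ?_
      rw [hn, hN]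
      exact Nat.le_mul_of_pos_left _ (by positivity)
    refine h2.trans ?_
    calc ((n.choose N : ℕ) : ℝ) * (W * (2 ^ R * Real.exp (-(2 * n : ℝ)))) ≤
        2 ^ n * (W * (2 ^ R * (1 / 4) ^ n)) := by gcongr
      _ = W / 8 * (2 ^ (R + 3) * (1 / 2) ^ n) := by
          have : (1 / 4 : ℝ) ^ n = (1 / 2) ^ n * (1 / 2) ^ n := by
            rw [← mul_pow]; norm_num
          rw [this]
          have h6 : (2 : ℝ) ^ n * (1 / 2) ^ n = 1 := by rw [← mul_pow]; norm_num
          calc (2 : ℝ) ^ n * (W * (2 ^ R * ((1 / 2) ^ n * (1 / 2) ^ n))) =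
              (2 ^ n * (1 / 2) ^ n) * (W * 2 ^ R * (1 / 2) ^ n) := by ring
            _ = _ := by rw [h6]; ring
      _ ≤ W / 8 * (2 ^ n * (1 / 2) ^ n) := by gcongr
      _ = W / 8 := by rw [← mul_pow]; norm_num
  -- third event
  set B3 := (Finset.Icc 1 (3 * g * N)).biUnion fun s =>
    (powersetCard s (univ : Finset (Fin n))).biUnion fun S =>
      univ.filter fun ω : Fin m → X => s / 2 + 1 ≤ (univ.filter fun i => ∀ a, ω i a ∈ S).card with hB3
  have e3 : (B3.card : ℝ) ≤ W / 3 := by
    have h1 : ∀ s ∈ Finset.Icc 1 (3 * g * N),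
        (((powersetCard s (univ : Finset (Fin n))).biUnion fun S =>
          univ.filter fun ω : Fin m → X =>
            s / 2 + 1 ≤ (univ.filter fun i => ∀ a, ω i a ∈ S).card).card : ℝ) ≤
        W * (1 / 4) ^ s := by
      intro s hs
      obtain ⟨hs1, hs2⟩ := Finset.mem_Icc.mp hs
      set q : ℝ := (s : ℝ) ^ (r' + 2) * ((4 * g ^ 4 * n : ℕ) : ℝ) /
        ((n : ℝ) ^ (r' + 2) * ((s / 2 + 1 : ℕ) : ℝ)) with hq
      obtain ⟨hq1, hq2⟩ := num3 n g s (r' + 2) hg hn0 hs1 (by
        rw [hn]
        calc s * g ≤ 3 * g * N * g := Nat.mul_le_mul_right _ hs2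
          _ = 3 * (g ^ 2 * N) := by ring) (by omega) q hq
      have h2 : ∀ S ∈ powersetCard s (univ : Finset (Fin n)),
          ((univ.filter fun ω : Fin m → X =>
            s / 2 + 1 ≤ (univ.filter fun i => ∀ a, ω i a ∈ S).card).card : ℝ) ≤
          W * (3 * q) ^ (s / 2 + 1) := by
        intro S hS
        have hSc := (mem_powersetCard.mp hS).2
        have hcard : (univ.filter fun x : X => ∀ a, x a ∈ S).card = s ^ (r' + 2) := by
          rw [← hSc]
          exact card_sub_pow n (r' + 2) S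
        refine tail_upper (X := X) (fun x => ∀ a, x a ∈ S) m (s / 2 + 1) hm0 (by omega) ?_ q ?_ hq1
        · rw [hcard]; positivity
        · rw [hcard, hcX, hq, hm, hd]
          push_cast
          rfl
      have h3 : (((powersetCard s (univ : Finset (Fin n))).biUnion fun S =>
          univ.filter fun ω : Fin m → X =>
            s / 2 + 1 ≤ (univ.filter fun i => ∀ a, ω i a ∈ S).card).card : ℝ) ≤
          ∑ S ∈ powersetCard s (univ : Finset (Fin n)), W * (3 * q) ^ (s / 2 + 1) := by
        refine le_trans ?_ (Finset.sum_le_sum h2)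
        exact_mod_cast card_biUnion_le
      rw [sum_const, card_powersetCard, card_univ, Fintype.card_fin, nsmul_eq_mul] at h3
      refine h3.trans ?_
      calc ((n.choose s : ℕ) : ℝ) * (W * (3 * q) ^ (s / 2 + 1)) =
          W * (((n.choose s : ℕ) : ℝ) * (3 * q) ^ (s / 2 + 1)) := by ring
        _ ≤ _ := by gcongr
    have h4 : (B3.card : ℝ) ≤ ∑ s ∈ Finset.Icc 1 (3 * g * N), W * (1 / 4) ^ s := by
      refine le_trans ?_ (Finset.sum_le_sum h1)
      rw [hB3]
      exact_mod_cast card_biUnion_le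
    rw [← Finset.mul_sum] at h4
    refine h4.trans ?_
    calc W * ∑ s ∈ Finset.Icc 1 (3 * g * N), (1 / 4 : ℝ) ^ s ≤ W * (1 / 3) := by
          gcongr
          exact geom_bound _
      _ = _ := by ring
  -- conclusion
  have h5 : ∃ ω : Fin m → X, ω ∉ B1 ∪ (B2 ∪ B3) := by
    by_contra hcon
    push Not at hcon
    have h6 : (univ : Finset (Fin m → X)) ⊆ B1 ∪ (B2 ∪ B3) := fun ω _ => hcon ω
    have h7 := (card_le_card h6).trans ((card_union_le _ _).trans
      (Nat.add_le_add_left (card_union_le _ _) _))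
    rw [card_univ] at h7
    have h8 : ((Fintype.card (Fin m → X) : ℕ) : ℝ) ≤ B1.card + (B2.card + B3.card) := by
      exact_mod_cast h7
    rw [hΩ] at h8
    linarith
  obtain ⟨ω, hω⟩ := h5
  rw [mem_union, mem_union, not_or, not_or] at hω
  obtain ⟨hω1, hω2, hω3⟩ := hω
  refine ⟨ω, univ.filter fun i => IsBad ω i, fun i => by simp, ?_, ?_, ?_⟩
  · by_contra hcon
    exact hω1 (mem_filter.mpr ⟨mem_univ _, not_le.mp hcon⟩)
  · intro T hT
    by_contra hcon
    exact hω2 (mem_biUnion.mpr ⟨T, mem_powersetCard.mpr ⟨subset_univ _, hT⟩,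
      mem_filter.mpr ⟨mem_univ _, not_lt.mp hcon⟩⟩)
  · intro S hS
    by_contra hcon
    rcases Nat.eq_zero_or_pos S.card with h0 | h0
    · have : S = ∅ := card_eq_zero.mp h0
      subst this
      simp at hcon
    · refine hω3 (mem_biUnion.mpr ⟨S.card, Finset.mem_Icc.mpr ⟨h0, hS⟩, mem_biUnion.mpr
        ⟨S, mem_powersetCard.mpr ⟨subset_univ _, rfl⟩, mem_filter.mpr ⟨mem_univ _, ?_⟩⟩⟩)
      omega

end Events

/-! ### The main result -/

/-- The separation choice number of linear `r`-uniform hypergraphs is bounded. -/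
theorem main (r : ℕ) (hr : 8 ≤ r) (D : ℕ) :
    ∃ (n : ℕ) (E : Finset (Finset (Fin n))), 0 < n ∧ (∀ e ∈ E, e.card = r) ∧ Linear E ∧
      D * n ≤ r * E.card ∧ SepChoosable E 3 := by
  classical
  obtain ⟨r', rfl⟩ : ∃ r', r = r' + 2 := ⟨r - 2, by omega⟩
  set g := 839808 + D with hg
  set d := 4 * g ^ 4 with hd
  set K := d * (r' + 2) ^ 2 + d ^ 2 * (r' + 2) ^ 4 with hK
  set R := 4 * K with hR
  set N := R + 3 with hN
  set n := g ^ 2 * N with hn
  set m := d * n with hm
  have hg0 : 0 < g := by omega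
  have hN0 : 0 < N := by omega
  have hn0 : 0 < n := by rw [hn]; positivity
  obtain ⟨ω, B, hB, hBR, hT, hS⟩ := exists_good r' g N R K n m d (by omega) (by omega) hd hK hR hN
    hn hm
  set im : Fin m → Finset (Fin n) := fun i => univ.image (ω i) with him
  have hgood : ∀ i, i ∉ B → Function.Injective (ω i) := by
    intro i hi a b hab
    by_contra hne
    exact hi ((hB i).mp (Or.inl ⟨a, b, hne, hab⟩))
  have hlin : ∀ i j, i ∉ B → ∀ u v, u ≠ v → u ∈ im i → v ∈ im i → u ∈ im j → v ∈ im j → i = j := by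
    intro i j hi u v huv hu hv hu' hv'
    by_contra hij
    simp only [him, mem_image, mem_univ, true_and] at hu hv hu' hv'
    obtain ⟨a, rfl⟩ := hu
    obtain ⟨b, rfl⟩ := hv
    obtain ⟨a', ha'⟩ := hu'
    obtain ⟨b', hb'⟩ := hv'
    refine hi ((hB i).mp (Or.inr ⟨j, a, b, a', b', hij, ?_, ha'.symm, hb'.symm⟩))
    rintro rfl
    exact huv rfl
  set E := Bᶜ.image im with hE
  have hcard : ∀ i, i ∉ B → (im i).card = r' + 2 := by
    intro i hi
    rw [him]
    simp only
    rw [card_image_of_injective _ (hgood i hi), card_univ, Fintype.card_fin]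
  have hEr : ∀ e ∈ E, e.card = r' + 2 := by
    intro e he
    obtain ⟨i, hi, rfl⟩ := mem_image.mp he
    exact hcard i (mem_compl.mp hi)
  refine ⟨n, E, hn0, hEr, ?_, ?_, ?_⟩
  · intro u v huv e he f hf hue hve huf hvf
    obtain ⟨i, hi, rfl⟩ := mem_image.mp he
    obtain ⟨j, hj, rfl⟩ := mem_image.mp hf
    rw [hlin i j (mem_compl.mp hi) u v huv hue hve huf hvf]
  · have hinj : Set.InjOn im (Bᶜ : Finset (Fin m)) := by
      intro i hi j hj hij
      have hi' : i ∉ B := by simpa using hi
      obtain ⟨u, hu, v, hv, huv⟩ := one_lt_card.mp (show 1 < (im i).card by rw [hcard i hi']; omega)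
      exact hlin i j hi' u v huv hu hv (hij ▸ hu) (hij ▸ hv)
    have hEc : E.card = m - B.card := by
      rw [hE, card_image_of_injOn hinj, card_compl, Fintype.card_fin]
    have h1 : R ≤ n := by
      rw [hn]
      calc R ≤ N := by omega
        _ ≤ _ := Nat.le_mul_of_pos_left _ (by positivity)
    have h2 : D + 1 ≤ d := by
      rw [hd]
      calc D + 1 ≤ g := by omega
        _ ≤ g ^ 4 := Nat.le_self_pow (by norm_num) g
        _ ≤ _ := by omega
    have h3 : D * n + R ≤ m := by
      calc D * n + R ≤ D * n + n := by omega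
        _ = (D + 1) * n := by ring
        _ ≤ m := by rw [hm]; exact Nat.mul_le_mul_right _ h2
    calc D * n ≤ E.card := by omega
      _ ≤ (r' + 2) * E.card := Nat.le_mul_of_pos_left _ (by omega)
  · refine sep_three E N (3 * g * N) ?_ ?_ ?_ (fun e he => by rw [hEr e he]; omega)
    · intro T hTN
      obtain ⟨T', hT', hT'c⟩ := exists_subset_card_eq hTN
      have h1 := hT T' hT'c
      have h2 : ∃ i ∈ univ.filter (fun i => ω i 0 ∈ T' ∧ ω i 1 ∈ T'), i ∉ B := by
        by_contra hcon
        push Not at hcon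
        have := card_le_card (s := univ.filter (fun i => ω i 0 ∈ T' ∧ ω i 1 ∈ T')) (t := B) hcon
        omega
      obtain ⟨i, hi, hiB⟩ := h2
      obtain ⟨h3, h4⟩ := (mem_filter.mp hi).2
      refine ⟨im i, mem_image.mpr ⟨i, mem_compl.mpr hiB, rfl⟩, ω i 0,
        mem_image.mpr ⟨0, mem_univ _, rfl⟩, ω i 1, mem_image.mpr ⟨1, mem_univ _, rfl⟩, ?_,
        hT' h3, hT' h4⟩
      intro h5
      have h6 := hgood i hiB h5
      exact absurd h6 (by simp)
    · intro S hSt
      refine le_trans (Nat.mul_le_mul_left 2 ?_) (hS S hSt)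
      have h1 : E.filter (fun e => e ⊆ S) ⊆ (univ.filter fun i => ∀ a, ω i a ∈ S).image im := by
        intro e he
        obtain ⟨he1, he2⟩ := mem_filter.mp he
        obtain ⟨i, hi, rfl⟩ := mem_image.mp he1
        refine mem_image.mpr ⟨i, mem_filter.mpr ⟨mem_univ _, fun a => ?_⟩, rfl⟩
        exact he2 (mem_image.mpr ⟨a, mem_univ _, rfl⟩)
      exact (card_le_card h1).trans card_image_le
    · rw [Fintype.card_fin, hn]
      have h1 : 0 < g ^ 2 * N ^ 2 := by positivity
      nlinarith


lemma exists_sepChoiceNumber {V : Type} (E : Finset (Finset V)) (k : ℕ) (h : SepChoosable E k) :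
    ∃ s ≤ k, IsSepChoiceNumber E s := by
  classical
  have hex : ∃ j, SepChoosable E j := ⟨k, h⟩
  exact ⟨Nat.find hex, Nat.find_min' hex h, Nat.find_spec hex, fun j hj => Nat.find_min' hex hj⟩

/-- **Q1 is answered in the negative.** For every `r ≥ 8` there are linear `r`-uniform hypergraphs
of arbitrarily large average degree with separation choice number at most `3`; in particular no
function tending to infinity bounds the separation choice number of linear `r`-uniform
hypergraphs from below in terms of the average degree. -/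
theorem result : ∀ r : ℕ, 8 ≤ r →
    (∀ D : ℝ, ∃ (n : ℕ) (E : Finset (Finset (Fin n))), 0 < n ∧ (∀ e ∈ E, e.card = r) ∧ Linear E ∧
      D ≤ (r * E.card : ℝ) / n ∧ ∃ s, IsSepChoiceNumber E s ∧ s ≤ 3) ∧
    ¬ ∃ f : ℝ → ℝ, Filter.Tendsto f Filter.atTop Filter.atTop ∧
      ∀ (n : ℕ) (E : Finset (Finset (Fin n))) (s : ℕ), 0 < n → (∀ e ∈ E, e.card = r) → Linear E →
        IsSepChoiceNumber E s → f ((r * E.card : ℝ) / n) ≤ s := by
  intro r hr
  have h1 : ∀ D : ℝ, ∃ (n : ℕ) (E : Finset (Finset (Fin n))), 0 < n ∧ (∀ e ∈ E, e.card = r) ∧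
      Linear E ∧ D ≤ (r * E.card : ℝ) / n ∧ ∃ s, IsSepChoiceNumber E s ∧ s ≤ 3 := by
    intro D
    obtain ⟨n, E, hn, hE, hlin, hD, hsep⟩ := main r hr ⌈D⌉₊
    obtain ⟨s, hs, hs'⟩ := exists_sepChoiceNumber E 3 hsep
    refine ⟨n, E, hn, hE, hlin, ?_, s, hs', hs⟩
    have hn' : (0 : ℝ) < n := by exact_mod_cast hn
    rw [le_div_iff₀ hn']
    have h2 : ((⌈D⌉₊ * n : ℕ) : ℝ) ≤ ((r * E.card : ℕ) : ℝ) := by exact_mod_cast hD
    push_cast at h2
    calc D * n ≤ ⌈D⌉₊ * n := by gcongr; exact Nat.le_ceil D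
      _ ≤ _ := h2
  refine ⟨h1, ?_⟩
  rintro ⟨f, hf, hall⟩
  obtain ⟨D, hD⟩ := Filter.tendsto_atTop_atTop.mp hf 4
  obtain ⟨n, E, hn, hE, hlin, hDE, s, hs, hs3⟩ := h1 D
  have h2 := hall n E s hn hE hlin hs
  have h3 := hD _ hDE
  have h4 : (s : ℝ) ≤ 3 := by exact_mod_cast hs3
  linarith

end Pool.Agent.Results.MP_873812_co.BoundedSeparation
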